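import Pool.Agent.Work.MP_0d206b_gt.Bd.StU

/-! Project MP_0d206b_gt, module U, item Criterion: the criterion for W2. -/

set_option autoImplicit false

namespace Pool.Agent.Work.MP_0d206b_gt.U

open Set Filter Topology Function

universe u v

namespace Criterion

variable {X : Type u} [TopologicalSpace X]

theorem ns_symm {a b : X} (h : NS a b) : NS b a := by
  refine ⟨fun e => h.1 e.symm, fun U V hU hV hb ha => ?_⟩
  obtain ⟨z, hz⟩ := h.2 V U hV hU ha hb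
  exact ⟨z, hz.2, hz.1⟩

theorem ns_of_tendsto {F : Filter ℝ} [F.NeBot] {f : ℝ → X} {a b : X} (hne : a ≠ b)
    (ha : Tendsto f F (𝓝 a)) (hb : Tendsto f F (𝓝 b)) : NS a b := by
  refine ⟨hne, fun U V hU hV haU hbV => ?_⟩
  have h1 : ∀ᶠ t in F, f t ∈ U := ha.eventually_mem (hU.mem_nhds haU)
  have h2 : ∀ᶠ t in F, f t ∈ V := hb.eventually_mem (hV.mem_nhds hbV)
  obtain ⟨t, ht⟩ := (h1.and h2).exists
  exact ⟨f t, ht.1, ht.2⟩

theorem not_tendsto_gt (hS : StSides.{u}) (hM : OneMfd X) {f : ℝ → X} (hf : IsOpenEmbedding f)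
    {x : X → ℝ} (hm : StrictMono (fun t => x (f t))) {y : X} (hy : y ≠ f 0)
    (h : ∀ U V : Set X, IsOpen U → IsOpen V → f 0 ∈ U → y ∈ V → ∃ c ∈ U ∩ V, x c < x (f 0)) :
    ¬ Tendsto f (𝓝[>] (0 : ℝ)) (𝓝 y) := by
  intro ht
  obtain ⟨oL, oR, -, -, hd, hu, iL, iR⟩ := hS hM f hf 0
  have hyu : y ∈ L f 0 ∪ R f 0 := by rw [hu]; exact hy
  have hyR : y ∈ R f 0 := by
    rcases hyu with hyL | hyR
    · exfalso
      have h1 : ∀ᶠ t in 𝓝[>] (0 : ℝ), f t ∈ L f 0 := ht.eventually_mem (oL.mem_nhds hyL)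
      have h2 : ∀ᶠ t in 𝓝[>] (0 : ℝ), t ∈ Ioi (0 : ℝ) := self_mem_nhdsWithin
      obtain ⟨t, ht1, ht2⟩ := (h1.and h2).exists
      exact Set.disjoint_left.1 hd ht1 (iR ⟨t, ht2, rfl⟩)
    · exact hyR
  obtain ⟨c, ⟨⟨s, rfl⟩, hcR⟩, hc⟩ := h (range f) (R f 0) hf.isOpen_range oR ⟨0, rfl⟩ hyR
  have hs : s < 0 := hm.lt_iff_lt.1 hc
  exact Set.disjoint_left.1 hd (iL ⟨s, hs, rfl⟩) hcR

theorem not_tendsto_lt (hS : StSides.{u}) (hM : OneMfd X) {f : ℝ → X} (hf : IsOpenEmbedding f)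
    {x : X → ℝ} (hm : StrictMono (fun t => x (f t))) {y : X} (hy : y ≠ f 0)
    (h : ∀ U V : Set X, IsOpen U → IsOpen V → f 0 ∈ U → y ∈ V → ∃ c ∈ U ∩ V, x (f 0) < x c) :
    ¬ Tendsto f (𝓝[<] (0 : ℝ)) (𝓝 y) := by
  intro ht
  obtain ⟨oL, oR, -, -, hd, hu, iL, iR⟩ := hS hM f hf 0
  have hyu : y ∈ L f 0 ∪ R f 0 := by rw [hu]; exact hy
  have hyL : y ∈ L f 0 := by
    rcases hyu with hyL | hyR
    · exact hyL
    · exfalso
      have h1 : ∀ᶠ t in 𝓝[<] (0 : ℝ), f t ∈ R f 0 := ht.eventually_mem (oR.mem_nhds hyR)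
      have h2 : ∀ᶠ t in 𝓝[<] (0 : ℝ), t ∈ Iio (0 : ℝ) := self_mem_nhdsWithin
      obtain ⟨t, ht1, ht2⟩ := (h1.and h2).exists
      exact Set.disjoint_left.1 hd (iL ⟨t, ht2, rfl⟩) ht1
  obtain ⟨c, ⟨⟨s, rfl⟩, hcL⟩, hc⟩ := h (range f) (L f 0) hf.isOpen_range oL ⟨0, rfl⟩ hyL
  have hs : 0 < s := hm.lt_iff_lt.1 hc
  exact Set.disjoint_left.1 hd hcL (iR ⟨s, hs, rfl⟩)

end Criterion

open Criterion in
theorem I_Criterion (hS : StSides.{u}) (_hC : StSideCases.{u}) (hB : StBridge.{u})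
    (hL : StGermLem.{u}) : StCriterion.{u} := by
  intro X _ hX XA x up sing _hXA hsub h1 h2 h3 h4 h5 h6 hd
  have hM : OneMfd X := hB.1 hX
  have key : ∀ a ∈ sing, ∃ y z, y ∈ XA ∧ z ∈ XA ∧ y ≠ z ∧ ¬ NS y z ∧ NS a y ∧
      ∀ w, NS a w ↔ w = y ∨ w = z := by
    intro a ha
    have haA := hsub ha
    obtain ⟨f, hf, h0, -, hm⟩ := h1 a haA
    subst h0
    obtain ⟨yL, hyLA, hyL, hyL'⟩ := h3 _ ha
    obtain ⟨yR, hyRA, hyR, hyR'⟩ := h4 _ ha
    have nL : NS (f 0) yL := by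
      refine ⟨hyL.symm, fun U V hU hV h0U hyV => ?_⟩
      obtain ⟨c, hc, -⟩ := hyL' U V hU hV h0U hyV
      exact ⟨c, hc⟩
    have nR : NS (f 0) yR := by
      refine ⟨hyR.symm, fun U V hU hV h0U hyV => ?_⟩
      obtain ⟨c, hc, -⟩ := hyR' U V hU hV h0U hyV
      exact ⟨c, hc⟩
    have tL : Tendsto f (𝓝[<] (0 : ℝ)) (𝓝 yL) := by
      rcases ((hL hX f hf 0 yL hyL).1.1 nL) with h | h
      · exact h
      · exact absurd h (not_tendsto_gt @hS hM hf hm hyL hyL')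
    have tR : Tendsto f (𝓝[>] (0 : ℝ)) (𝓝 yR) := by
      rcases ((hL hX f hf 0 yR hyR).1.1 nR) with h | h
      · exact absurd h (not_tendsto_lt @hS hM hf hm hyR hyR')
      · exact h
    have hne : yL ≠ yR := by
      rintro rfl
      exact (hL hX f hf 0 yL hyL).2 ⟨tL, tR⟩
    have uL := (h2 _ haA _ hyLA nL).2
    have uR := (h2 _ haA _ hyRA nR).2
    refine ⟨yL, yR, hyLA, hyRA, hne, ?_, nL, ?_⟩
    · intro hLR
      have := (h2 _ hyLA _ hyRA hLR).2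
      tauto
    · intro w
      constructor
      · intro hw
        have hwA : w ∈ XA := by
          by_contra hwA
          exact h5 _ haA w hwA hw
        have uw := (h2 _ haA _ hwA hw).2
        rcases ((hL hX f hf 0 w hw.1.symm).1.1 hw) with h | h
        · left
          by_contra hwne
          have := (h2 _ hwA _ hyLA (ns_of_tendsto hwne h tL)).2
          tauto
        · right
          by_contra hwne
          have := (h2 _ hwA _ hyRA (ns_of_tendsto hwne h tR)).2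
          tauto
      · rintro (rfl | rfl)
        · exact nL
        · exact nR
  refine { toIsSC1 := hX, types := ?_, dense := ?_ }
  · intro a
    by_cases ha : a ∈ sing
    · right
      obtain ⟨y, z, -, -, hne, hns, -, hw⟩ := key a ha
      exact ⟨y, z, hne, hns, hw⟩
    · left
      intro y hy
      by_cases haA : a ∈ XA
      · by_cases hyA : y ∈ XA
        · exact ha (h2 a haA y hyA hy).1
        · exact h5 a haA y hyA hy
      · by_cases hyA : y ∈ XA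
        · exact h5 y hyA a haA (ns_symm hy)
        · exact h6 a y haA hyA hy
  · refine hd.mono ?_
    intro a ha
    obtain ⟨y, z, -, -, -, -, hn, -⟩ := key a ha
    exact ⟨y, hn⟩

end Pool.Agent.Work.MP_0d206b_gt.U
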