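import Pool.Agent.Work.MP_0d206b_gt.Bd.StU

/-! Item 34: the partner along a germ. -/

set_option autoImplicit false

namespace Pool.Agent.Work.MP_0d206b_gt.U

open Set Filter Topology Function

universe u

namespace GermPartner

theorem ns_of_tendsto {X : Type u} [TopologicalSpace X] {f : ℝ → X} {l : Filter ℝ} [l.NeBot]
    {y z : X} (hyz : y ≠ z) (hy : Tendsto f l (𝓝 y)) (hz : Tendsto f l (𝓝 z)) : NS y z := by
  refine ⟨hyz, fun U V hU hV hyU hzV => ?_⟩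
  have h1 : ∀ᶠ s in l, f s ∈ U := hy (hU.mem_nhds hyU)
  have h2 : ∀ᶠ s in l, f s ∈ V := hz (hV.mem_nhds hzV)
  obtain ⟨s, hs⟩ := (h1.and h2).exists
  exact ⟨f s, hs⟩

theorem core {X : Type u} [TopologicalSpace X] (hL : StGermLem.{u}) (hX : IsSC1 X) {f : ℝ → X}
    (hf : IsOpenEmbedding f) {t : ℝ} {w w' : X} (hne : w ≠ w')
    (h : ∀ y, NS (f t) y ↔ y = w ∨ y = w') (hw : Tendsto f (𝓝[<] t) (𝓝 w))
    (hw' : Tendsto f (𝓝[>] t) (𝓝 w')) :
    ∃ w w' : X, w ≠ w' ∧ (∀ y, NS (f t) y ↔ y = w ∨ y = w') ∧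
      (∀ y, y ≠ f t → (Tendsto f (𝓝[<] t) (𝓝 y) ↔ y = w)) ∧
      (∀ y, y ≠ f t → (Tendsto f (𝓝[>] t) (𝓝 y) ↔ y = w')) := by
  have hwt : w ≠ f t := ((h w).mpr (Or.inl rfl)).1.symm
  have hwt' : w' ≠ f t := ((h w').mpr (Or.inr rfl)).1.symm
  refine ⟨w, w', hne, h, fun y hy => ⟨fun hT => ?_, fun hT => hT ▸ hw⟩,
    fun y hy => ⟨fun hT => ?_, fun hT => hT ▸ hw'⟩⟩
  · rcases (h y).mp ((hL hX f hf t y hy).1.mpr (Or.inl hT)) with h1 | h1
    · exact h1
    · rw [h1] at hT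
      exact absurd ⟨hT, hw'⟩ (hL hX f hf t w' hwt').2
  · rcases (h y).mp ((hL hX f hf t y hy).1.mpr (Or.inr hT)) with h1 | h1
    · rw [h1] at hT
      exact absurd ⟨hw, hT⟩ (hL hX f hf t w hwt).2
    · exact h1

end GermPartner

theorem I_GermPartner (hL : StGermLem.{u}) : StGermPartner.{u} := by
  intro X _ hX f hf t ⟨y₀, hy₀⟩
  rcases hX.types (f t) with h | ⟨y, z, hyz, hns, h⟩
  · exact absurd hy₀ (h y₀)
  · have hy := (h y).mpr (Or.inl rfl)
    have hz := (h z).mpr (Or.inr rfl)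
    have h1 := (hL hX.toIsSC1 f hf t y hy.1.symm).1.mp hy
    have h2 := (hL hX.toIsSC1 f hf t z hz.1.symm).1.mp hz
    rcases h1 with h1 | h1
    · rcases h2 with h2 | h2
      · exact absurd (GermPartner.ns_of_tendsto hyz h1 h2) hns
      · exact GermPartner.core hL hX.toIsSC1 hf hyz h h1 h2
    · rcases h2 with h2 | h2
      · exact GermPartner.core hL hX.toIsSC1 hf hyz.symm
          (fun w => (h w).trans or_comm) h2 h1
      · exact absurd (GermPartner.ns_of_tendsto hyz h1 h2) hns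

end Pool.Agent.Work.MP_0d206b_gt.U
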