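import Mathlib
import Pool.Agent.Work.MP_0d206b_gt.Bd.StU

/-! Item NoTriple: no three pairwise non-separated points in type W2. -/

set_option autoImplicit false

namespace Pool.Agent.Work.MP_0d206b_gt.U

open Set Filter Topology Function

universe u v

theorem I_NoTriple (hS : StSides.{u}) (hC : StSideCases.{u}) : StNoTriple.{u} := by
  intro X _ hX hW x y z hxy hyz hxz hNxy hNyz hNxz
  obtain ⟨φ, hφ, h0⟩ := hX.chart x
  obtain ⟨hLo, hRo, -, -, hdis, hun, -, -⟩ := hS hX φ hφ 0
  obtain ⟨-, hcL, hcR, -⟩ := hC hX φ hφ 0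
  rw [h0] at hun hcL hcR
  obtain ⟨p, q, hp, hq, hNp, hNq, hpq, hall⟩ := hW.two x ⟨y, fun h => hxy h.symm, hNxy⟩
  have hy := hall y (fun h => hxy h.symm) hNxy
  have hz := hall z (fun h => hxz h.symm) hNxz
  have hpm : p ∈ L φ 0 ∪ R φ 0 := by
    rw [hun]; exact hp
  have hqm : q ∈ L φ 0 ∪ R φ 0 := by
    rw [hun]; exact hq
  have hN : NonSep p q := by
    rcases hy with rfl | rfl
    · rcases hz with rfl | rfl
      · exact absurd rfl hyz
      · exact hNyz
    · rcases hz with rfl | rfl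
      · intro U V hU hV hpU hqV
        have h := hNyz V U hV hU hqV hpU
        rwa [Set.inter_comm] at h
      · exact absurd rfl hyz
  rcases hpm with hpL | hpR
  · rcases hqm with hqL | hqR
    · exact hpq (by rw [hcL q hqL]; exact hpL)
    · obtain ⟨w, hw1, hw2⟩ := hN _ _ hLo hRo hpL hqR
      exact Set.disjoint_left.1 hdis hw1 hw2
  · rcases hqm with hqL | hqR
    · obtain ⟨w, hw1, hw2⟩ := hN _ _ hRo hLo hpR hqL
      exact Set.disjoint_left.1 hdis hw2 hw1
    · exact hpq (by rw [hcR q hqR]; exact hpR)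

end Pool.Agent.Work.MP_0d206b_gt.U
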