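import Pool.Agent.Work.MP_0d206b_gt.Bd.StU

/-! Item NoTriple2: no three pairwise non-separated points in type W2. -/

set_option autoImplicit false

namespace Pool.Agent.Work.MP_0d206b_gt.U

open Set Filter Topology Function

universe u v

namespace NoTriple2

theorem symm {X : Type u} [TopologicalSpace X] {x y : X} (h : NS x y) : NS y x :=
  ⟨h.1.symm, fun U V hU hV hy hx => by
    rw [Set.inter_comm]
    exact h.2 V U hV hU hx hy⟩

end NoTriple2

theorem I_NoTriple2 : StNoTriple2.{u} := by
  intro X _ hX x y z hxy hyz hxz
  rcases hX.types x with h | ⟨p, q, hpq, hn, hw⟩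
  · exact h y hxy
  · have h1 := (hw y).1 hxy
    have h2 := (hw z).1 hxz
    have hne : y ≠ z := hyz.1
    rcases h1 with h1 | h1 <;> rcases h2 with h2 | h2
    · exact hne (h1.trans h2.symm)
    · subst h1; subst h2
      exact hn hyz
    · subst h1; subst h2
      exact hn (NoTriple2.symm hyz)
    · exact hne (h1.trans h2.symm)

end Pool.Agent.Work.MP_0d206b_gt.U
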