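import Pool.Agent.Work.MP_0d206b_gt.Bd.StU

/-! MP_0d206b_gt, module U, item 37: reparametrisation of a local line. -/

set_option autoImplicit false

namespace Pool.Agent.Work.MP_0d206b_gt.U

open Set Filter Topology

universe u v

namespace Reparam

/-- the standard squeezing -/
noncomputable def sq (t : ℝ) : ℝ := t / (1 + |t|)

lemma sq_lt (t : ℝ) : sq t < 1 := by
  unfold sq
  have h : 0 < 1 + |t| := by positivity
  rw [div_lt_one h]
  linarith [le_abs_self t]

lemma neg_lt_sq (t : ℝ) : -1 < sq t := by
  unfold sq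
  have h : 0 < 1 + |t| := by positivity
  rw [lt_div_iff₀ h]
  linarith [neg_abs_le t]

lemma sq_mono : StrictMono sq := by
  intro s t hst
  unfold sq
  have h1 : 0 < 1 + |s| := by positivity
  have h2 : 0 < 1 + |t| := by positivity
  rw [div_lt_div_iff₀ h1 h2]
  rcases le_total 0 s with hs | hs
  · rw [abs_of_nonneg hs, abs_of_nonneg (hs.trans hst.le)]
    nlinarith
  · rcases le_total 0 t with ht | ht
    · rw [abs_of_nonpos hs, abs_of_nonneg ht]
      nlinarith [mul_nonneg ht (neg_nonneg.2 hs)]
    · rw [abs_of_nonpos hs, abs_of_nonpos ht]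
      nlinarith

lemma sq_surj {v : ℝ} (h1 : -1 < v) (h2 : v < 1) : ∃ t, sq t = v := by
  have h : 0 < 1 - |v| := by
    have : |v| < 1 := abs_lt.2 ⟨h1, h2⟩
    linarith
  refine ⟨v / (1 - |v|), ?_⟩
  unfold sq
  rw [abs_div, abs_of_pos h]
  have h3 : 1 + |v| / (1 - |v|) = 1 / (1 - |v|) := by
    field_simp
    ring
  rw [h3]
  field_simp

/-- the reparametrisation -/
noncomputable def th (a b c t : ℝ) : ℝ := c + (b - c) * max (sq t) 0 + (c - a) * min (sq t) 0

lemma th_mono {a b c : ℝ} (h1 : a < c) (h2 : c < b) : StrictMono (th a b c) := by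
  intro s t hst
  have h := sq_mono hst
  have hA : max (sq s) 0 ≤ max (sq t) 0 := max_le_max h.le le_rfl
  have hB : min (sq s) 0 ≤ min (sq t) 0 := min_le_min h.le le_rfl
  have hs : max (sq s) 0 + min (sq s) 0 = sq s := by rw [max_add_min, add_zero]
  have ht : max (sq t) 0 + min (sq t) 0 = sq t := by rw [max_add_min, add_zero]
  unfold th
  rcases lt_or_ge (max (sq s) 0) (max (sq t) 0) with h3 | h3
  · have h4 : (b - c) * max (sq s) 0 < (b - c) * max (sq t) 0 :=
      mul_lt_mul_of_pos_left h3 (by linarith)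
    have h5 : (c - a) * min (sq s) 0 ≤ (c - a) * min (sq t) 0 :=
      mul_le_mul_of_nonneg_left hB (by linarith)
    linarith
  · have h4 : min (sq s) 0 < min (sq t) 0 := by linarith
    have h5 : (c - a) * min (sq s) 0 < (c - a) * min (sq t) 0 :=
      mul_lt_mul_of_pos_left h4 (by linarith)
    have h6 : (b - c) * max (sq s) 0 ≤ (b - c) * max (sq t) 0 :=
      mul_le_mul_of_nonneg_left hA (by linarith)
    linarith

lemma th_range {a b c : ℝ} (h1 : a < c) (h2 : c < b) : range (th a b c) = Ioo a b := by
  ext y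
  constructor
  · rintro ⟨t, rfl⟩
    have h3 : max (sq t) 0 < 1 := max_lt (sq_lt t) one_pos
    have h4 : -1 < min (sq t) 0 := lt_min (neg_lt_sq t) (by norm_num)
    have h5 : 0 ≤ max (sq t) 0 := le_max_right _ _
    have h6 : min (sq t) 0 ≤ 0 := min_le_right _ _
    unfold th
    constructor
    · nlinarith [mul_nonneg (by linarith : 0 ≤ b - c) h5,
        mul_lt_mul_of_pos_left h4 (by linarith : 0 < c - a)]
    · nlinarith [mul_nonneg (by linarith : 0 ≤ c - a) (neg_nonneg.2 h6),
        mul_lt_mul_of_pos_left h3 (by linarith : 0 < b - c)]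
  · rintro ⟨hy1, hy2⟩
    rcases le_total c y with hcy | hcy
    · have h3 : 0 < b - c := by linarith
      obtain ⟨t, ht⟩ := sq_surj (v := (y - c) / (b - c))
        (by
          have : 0 ≤ (y - c) / (b - c) := div_nonneg (by linarith) h3.le
          linarith)
        (by rw [div_lt_one h3]; linarith)
      refine ⟨t, ?_⟩
      have h4 : 0 ≤ (y - c) / (b - c) := div_nonneg (by linarith) h3.le
      unfold th
      rw [ht, max_eq_left h4, min_eq_right h4, mul_div_cancel₀ _ h3.ne']
      ring
    · have h3 : 0 < c - a := by linarith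
      have h4 : (y - c) / (c - a) ≤ 0 := div_nonpos_of_nonpos_of_nonneg (by linarith) h3.le
      obtain ⟨t, ht⟩ := sq_surj (v := (y - c) / (c - a))
        (by rw [lt_div_iff₀ h3]; linarith) (by linarith)
      refine ⟨t, ?_⟩
      unfold th
      rw [ht, max_eq_right h4, min_eq_left h4, mul_div_cancel₀ _ h3.ne']
      ring

end Reparam

open Reparam in
theorem I_Reparam : StReparam.{u} := by
  intro X _ g a b c hac hcb hg hi ho
  have hm := th_mono hac hcb
  have hr := th_range hac hcb
  have he : IsOpenEmbedding (th a b c) :=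
    ⟨hm.isEmbedding_of_ordConnected (by rw [hr]; exact ordConnected_Ioo), by rw [hr]; exact isOpen_Ioo⟩
  have hmem : ∀ t, th a b c t ∈ Ioo a b := fun t => hr ▸ mem_range_self t
  refine ⟨th a b c, hm, he.continuous, by simp [th, Reparam.sq], hr, ?_⟩
  refine IsOpenEmbedding.of_continuous_injective_isOpenMap ?_ ?_ ?_
  · exact hg.comp_continuous he.continuous hmem
  · intro s t hst
    exact hm.injective (hi (hmem s) (hmem t) hst)
  · intro U hU
    have h1 : (fun t => g (th a b c t)) '' U = g '' (th a b c '' U) := by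
      rw [image_image]
    rw [h1]
    refine ho _ ?_ (he.isOpenMap U hU)
    rintro _ ⟨t, -, rfl⟩
    exact hmem t

end Pool.Agent.Work.MP_0d206b_gt.U
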