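import Pool.Agent.Work.MP_0d206b_gt.Bd.StU
import Pool.Agent.Work.MP_0d206b_gt.Bd.U2
import Pool.Agent.Work.MP_0d206b_gt.Bd.U1
import Pool.Agent.Work.MP_0d206b_gt.U.NoTriple
import Pool.Agent.Work.MP_0d206b_gt.U.GermPartner
import Pool.Agent.Work.MP_0d206b_gt.U.Criterion
import Pool.Agent.Work.MP_0d206b_gt.U.Reparam
import Pool.Agent.Work.MP_0d206b_gt.U.NoTriple2

/-! Project MP_0d206b_gt, module U: everything proved (assembly). -/

set_option autoImplicit false

namespace Pool.Agent.Work.MP_0d206b_gt.U

open Set Filter Topology Function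

universe u v

theorem T1_all : StT1.{u} := @I_T1.{u}
theorem Shrink_all : StShrink.{u} := @I_Shrink.{u}
theorem Sides_all : StSides.{u} := @I_Sides.{u} @T1_all
theorem SideCases_all : StSideCases.{u} := @I_SideCases.{u} @Sides_all
theorem Within_all : StWithin.{u} := @I_Within.{u} @Sides_all
theorem Glue_all : StGlue.{u} := @I_Glue.{u} @Sides_all @SideCases_all
theorem Near_all : StNear.{u} := @I_Near.{u} @Sides_all @SideCases_all
theorem Extend_all : StExtend.{u} := @I_Extend.{u} @Shrink_all @Sides_all @SideCases_all @Glue_all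
theorem Line_all : StLine.{u} :=
  @I_Line.{u} @T1_all @Shrink_all @Sides_all @SideCases_all @Extend_all @I_Lim
theorem MaxFull_all : StMaxFull.{u} := @I_MaxFull.{u} @T1_all @Sides_all @SideCases_all @Near_all
theorem FullLine_all : StFullLine.{u} := @I_FullLine.{u} @Line_all @MaxFull_all
theorem Germ_all : StGerm.{u} := @I_Germ.{u} @Sides_all @SideCases_all @Within_all
theorem Countable_all : StCountable.{u} := @I_Countable.{u} @T1_all @Sides_all @SideCases_all
theorem RayFull_all : StRayFull.{u} := @I_RayFull.{u} @Sides_all @SideCases_all @Near_all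
theorem Partner_all : StPartner.{u, v} :=
  @I_Partner.{u, v} @T1_all @T1_all @Shrink_all @Sides_all @Sides_all @SideCases_all
    @SideCases_all @Within_all @Within_all @Germ_all @Germ_all
theorem Step_all : StStep.{u, v} :=
  @I_Step.{u, v} @Sides_all @Sides_all @SideCases_all @SideCases_all @Near_all @FullLine_all
    @Countable_all @Countable_all @I_Mark @RayFull_all @RayFull_all @I_GlueHomeo @Partner_all
theorem ReachRay_all : StReachRay.{u, v} :=
  @I_ReachRay.{u, v} @Sides_all @SideCases_all @FullLine_all @Step_all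
theorem Reach_all : StReach.{u, v} := @I_Reach.{u, v} @ReachRay_all
theorem Init_all : StInit.{u, v} :=
  @I_Init.{u, v} @FullLine_all @FullLine_all @Countable_all @Countable_all @I_Mark

/-- Uniqueness of the one-manifold of type W2. -/
theorem Unique_all : StUnique.{u, v} :=
  @I_Unique.{u, v} @Reach_all @Reach_all @I_Symm @I_Symm @Init_all @I_LimHomeo @I_Cover @I_Cover

theorem Cut_all : StCut.{u, v} := @I_Cut.{u, v} @T1_all @I_Cocycle
theorem NoTriple_all : StNoTriple.{u} := @I_NoTriple.{u} @Sides_all @SideCases_all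
theorem Bridge_all : StBridge.{u} :=
  @I_Bridge.{u} @Sides_all @SideCases_all @Within_all @Germ_all
theorem Interval_all : StInterval.{u} := @I_Interval.{u} @Sides_all @SideCases_all @Bridge_all
theorem GermLem_all : StGermLem.{u} :=
  @I_GermLem.{u} @Sides_all @SideCases_all @Within_all @Germ_all @Bridge_all
theorem BdGerm_all : StBdGerm.{u} :=
  @I_BdGerm.{u} @Sides_all @SideCases_all @Near_all @Bridge_all
theorem GermPartner_all : StGermPartner.{u} := @I_GermPartner.{u} @GermLem_all
theorem Criterion_all : StCriterion.{u} :=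
  @I_Criterion.{u} @Sides_all @SideCases_all @Bridge_all @GermLem_all
theorem SC1_all : StSC1.{u, v} := @I_SC1.{u, v} @Cut_all

/-- The final form of module U. -/
theorem finalU : StFinalU.{u, v} := by
  intro X Y _ _ hX hY
  have := hX.sc
  have := hY.sc
  exact Unique_all ((@Bridge_all X _).1 hX.toIsSC1) ((@Bridge_all Y _).1 hY.toIsSC1)
    ((@Bridge_all X _).2 hX) ((@Bridge_all Y _).2 hY)

end Pool.Agent.Work.MP_0d206b_gt.U
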